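import Pool.Agent.helper58.ZB.SpecN

/-!
# Project ZB (MP_baa4d7_al), block N, row PPZ
-/

set_option autoImplicit false

namespace Pool.Agent.GB

open Pool.Agent.helper58.DC Pool.Agent.DI Pool.Agent.GR Pool.Agent.OB Pool.Agent.DR Pool.Agent.FI Pool.Agent.FI3 Pool.Agent.FI4 Pool.Agent.LE Pool.Agent.BR

theorem PPZ_pow (hQCE : QCE_stmt) {G : Type} [Group G] [Finite G] (K : Subgroup G) (z : G) (hz : z ∈ K) (hc : Cen K z) :
    ∀ φ ∈ IrrOn K, ∀ s : ℕ, φ (z ^ s) / φ 1 = (φ z / φ 1) ^ s := by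
  intro φ hφ s
  have h0 : φ 1 ≠ 0 := IrrOn_ne hφ
  induction s with
  | zero => rw [pow_zero, pow_zero, div_self h0]
  | succ s ih =>
    have h1 := (hQCE G K z hz hc φ hφ).1 (z ^ s)
    rw [pow_succ' (φ z / φ 1), ← ih, pow_succ' z, div_mul_div_comm, ← h1, mul_div_mul_right _ _ h0]

theorem PPZ_root (hQCE : QCE_stmt) {G : Type} [Group G] [Finite G] (K : Subgroup G) (z : G) (hz : z ∈ K) (hc : Cen K z)
    (n : ℕ) (hn : 0 < n) (hzn : z ^ n = 1) (ζ : ℂ) (hζ : IsPrimitiveRoot ζ n) :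
    ∀ φ ∈ IrrOn K, ∃ e : ℕ, φ z / φ 1 = ζ ^ e := by
  intro φ hφ
  have : NeZero n := ⟨hn.ne'⟩
  have h1 := PPZ_pow hQCE K z hz hc φ hφ n
  rw [hzn, div_self (IrrOn_ne hφ)] at h1
  obtain ⟨i, -, hi⟩ := hζ.eq_pow_of_pow_eq_one h1.symm
  exact ⟨i, hi.symm⟩

theorem PPZ_cen {G : Type} [Group G] (u : G) : Cen (Cz (⊤ : Subgroup G) u) u := fun _ hl => ((mem_Cz.1 hl).2).symm

theorem PPZ_ceni {G : Type} [Group G] (u : G) : Cen (Cz (⊤ : Subgroup G) u) u⁻¹ := by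
  intro l hl
  have h1 : Commute u l := (mem_Cz.1 hl).2
  exact h1.inv_left.symm

theorem PPZ_cenp {G : Type} [Group G] (u : G) (s : ℕ) : Cen (Cz (⊤ : Subgroup G) u) (u⁻¹ ^ s) := by
  intro l hl
  have h1 : Commute u l := (mem_Cz.1 hl).2
  exact (h1.inv_left.pow_left s).symm

theorem PPZ (hPPX : PPX_stmt) (hZAX : ZAX_stmt) (hQRS : QRS_stmt) (hQCE : QCE_stmt) : PPZ_stmt := by
  classical
  intro p M hM G _ _ θ N u hN ψ hψ ψ' hψ' n hn hun ζ hζ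
  have huK : u ∈ Cz (⊤ : Subgroup G) u := mem_Cz.2 ⟨Subgroup.mem_top u, rfl⟩
  have huK' : u⁻¹ ∈ Cz (⊤ : Subgroup G) u := (Cz (⊤ : Subgroup G) u).inv_mem huK
  have hpow := PPZ_pow hQCE (Cz (⊤ : Subgroup G) u) u huK (PPZ_cen u)
  have hpow' := PPZ_pow hQCE (Cz (⊤ : Subgroup G) u) u⁻¹ huK' (PPZ_ceni u)
  have hroot := PPZ_root hQCE (Cz (⊤ : Subgroup G) u) u huK (PPZ_cen u) n hn hun ζ hζ
  have hroot' := PPZ_root hQCE (Cz (⊤ : Subgroup G) u) u⁻¹ huK' (PPZ_ceni u) n hn (by rw [inv_pow, hun, inv_one]) ζ hζ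
  have hm := (hQRS G ⊤ (Cz (⊤ : Subgroup G) u) le_top ψ hψ).1
  have hm' := (hQRS G ⊤ (Cz (⊤ : Subgroup G) u) le_top ψ' hψ').1
  choose! e he using hroot
  choose! e' he' using hroot'
  choose! m hm using hm
  choose! m' hm' using hm'
  have hfin : (Bl M (Cz (⊤ : Subgroup G) u) θ).Finite := (IrrOn_fin (Cz (⊤ : Subgroup G) u)).subset fun φ h => h.1
  have hr : ∀ φ ∈ Bl M (Cz (⊤ : Subgroup G) u) θ, ∃ P : Polynomial ℤ, ∀ s : ℕ,
      (N : ℂ) * az p (Cz (⊤ : Subgroup G) u) φ ψ' (u⁻¹ ^ s) = Polynomial.aeval (ζ ^ s) P := by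
    intro φ hφ
    have hE : ∀ η ∈ Bl M (Cz (⊤ : Subgroup G) u) θ, ∃ r : ℤ, (N : ℂ) * EE p (Cz (⊤ : Subgroup G) u) η φ = (r : ℂ) :=
      fun η hη => hN η hη φ hφ.1
    choose! r hr using hE
    refine ⟨∑ η ∈ hfin.toFinset, Polynomial.C ((m' η : ℤ) * r η) * Polynomial.X ^ (e' η), ?_⟩
    intro s
    rw [hZAX p M hM G _ θ φ hφ (u⁻¹ ^ s) (Subgroup.pow_mem _ huK' s) (PPZ_cenp u s) ψ' hψ',
      finsum_mem_eq_finite_toFinset_sum _ hfin, map_sum, Finset.mul_sum]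
    refine Finset.sum_congr rfl fun η hη => ?_
    have hη0 : η ∈ Bl M (Cz (⊤ : Subgroup G) u) θ := (Set.Finite.mem_toFinset hfin).1 hη
    have hη1 : η ∈ IrrOn (Cz (⊤ : Subgroup G) u) := hη0.1
    rw [hpow' η hη1 s, hm' η hη1, he' η hη1, map_mul, map_pow, Polynomial.aeval_C, Polynomial.aeval_X, ← pow_mul, ← pow_mul,
      mul_comm (e' η) s]
    have h1 := hr η hη0
    have h2 : (algebraMap ℤ ℂ) ((m' η : ℤ) * r η) = (m' η : ℂ) * (r η : ℂ) := by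
      rw [map_mul]
      simp
    rw [h2, ← h1]
    ring
  choose! P hP using hr
  refine ⟨∑ φ ∈ hfin.toFinset, Polynomial.C ((m φ : ℤ)) * Polynomial.X ^ (e φ) * P φ, ?_⟩
  intro s hs
  rw [hPPX p M G θ (u ^ s) ψ hψ ψ', hs,
    finsum_mem_eq_finite_toFinset_sum _ hfin, map_sum, Finset.mul_sum]
  refine Finset.sum_congr rfl fun φ hφ => ?_
  have hφ0 : φ ∈ Bl M (Cz (⊤ : Subgroup G) u) θ := (Set.Finite.mem_toFinset hfin).1 hφ
  have hφ1 : φ ∈ IrrOn (Cz (⊤ : Subgroup G) u) := hφ0.1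
  rw [hpow φ hφ1 s, hm φ hφ1, he φ hφ1, map_mul, map_mul, map_pow, Polynomial.aeval_C, Polynomial.aeval_X, ← pow_mul,
    ← pow_mul, mul_comm (e φ) s]
  have h1 := hP φ hφ0 s
  have h2 : (algebraMap ℤ ℂ) ((m φ : ℤ)) = (m φ : ℂ) := by
    simp
  rw [h2, ← h1, inv_pow]
  ring

end Pool.Agent.GB
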